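import Mathlib
import Pool.Agent.H12.ST.Fin

/-!
Singer's theorem: for every prime power `q` there is a cyclic projective plane of order `q`.
-/

set_option autoImplicit false

namespace Pool.Agent.H12.SG

open Configuration Matrix

section

variable {k K : Type} [Field k] [Field K] [Algebra k K]

/-- the classes of the units of `K` modulo the units of `k` -/
abbrev Cl (k K : Type) [Field k] [Field K] [Algebra k K] : Type :=
  Kˣ ⧸ (Units.map (algebraMap k K : k →* K)).range

/-- the class of a unit -/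
def cl (k : Type) {K : Type} [Field k] [Field K] [Algebra k K] (u : Kˣ) : Cl k K :=
  QuotientGroup.mk u

lemma cl_mul (u v : Kˣ) : cl k (u * v) = cl k u * cl k v := rfl

lemma cl_eq (u v : Kˣ) : cl k u = cl k v ↔ ∃ t : k, (v : K) = t • (u : K) := by
  unfold cl
  rw [QuotientGroup.eq, MonoidHom.mem_range]
  constructor
  · rintro ⟨t, ht⟩
    refine ⟨t, ?_⟩
    have h1 : u * Units.map (algebraMap k K : k →* K) t = v := by
      rw [ht, mul_inv_cancel_left]
    have h2 := congrArg (Units.val) h1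
    rw [Units.val_mul] at h2
    rw [← h2, Algebra.smul_def, mul_comm]
    rfl
  · rintro ⟨t, ht⟩
    have ht0 : t ≠ 0 := by
      rintro rfl
      rw [zero_smul] at ht
      exact v.ne_zero ht
    refine ⟨Units.mk0 t ht0, ?_⟩
    rw [eq_inv_mul_iff_mul_eq]
    apply Units.ext
    rw [Units.val_mul, ht, Algebra.smul_def, mul_comm]
    rfl

/-- the difference set: the classes of the elements of trace zero -/
def D0 (k K : Type) [Field k] [Field K] [Algebra k K] : Set (Cl k K) :=
  {a | ∃ u : Kˣ, cl k u = a ∧ Algebra.trace k K (u : K) = 0}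

lemma mem_D0 (u : Kˣ) : cl k u ∈ D0 k K ↔ Algebra.trace k K (u : K) = 0 := by
  constructor
  · rintro ⟨v, hv, h0⟩
    obtain ⟨t, ht⟩ := (cl_eq v u).1 hv
    rw [ht, map_smul, h0, smul_zero]
  · exact fun h => ⟨u, rfl, h⟩

variable [Finite k] [Finite K]

lemma exists_c (e : (Fin 3 → k) ≃ₗ[k] K) (w : Fin 3 → k) (hw : w ≠ 0) :
    ∃ c : Kˣ, ∀ v : Fin 3 → k, v ⬝ᵥ w = Algebra.trace k K (e v * c) := by
  have hnd := traceForm_nondegenerate k K
  let φ : K →ₗ[k] k := (dotProductBilin k k w) ∘ₗ (e.symm : K →ₗ[k] (Fin 3 → k))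
  obtain ⟨c, hc⟩ := ((Algebra.traceForm k K).toDual hnd).surjective φ
  have h1 : ∀ v : Fin 3 → k, v ⬝ᵥ w = Algebra.trace k K (e v * c) := by
    intro v
    have h2 := LinearMap.congr_fun hc (e v)
    rw [LinearMap.BilinForm.toDual_def, Algebra.traceForm_apply] at h2
    rw [mul_comm, h2]
    show v ⬝ᵥ w = w ⬝ᵥ (e.symm (e v))
    rw [LinearEquiv.symm_apply_apply, dotProduct_comm]
  have hc0 : c ≠ 0 := by
    rintro rfl
    apply hw
    rw [← dotProduct_eq_zero_iff]
    intro v
    rw [dotProduct_comm, h1 v, mul_zero, map_zero]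
  exact ⟨Units.mk0 c hc0, h1⟩

omit [Finite k] in
open scoped LinearAlgebra.Projectivization in
lemma mem_rep (p l : ℙ k (Fin 3 → k)) : p ∈ l ↔ p.rep ⬝ᵥ l.rep = 0 := by
  have h : Projectivization.mk k p.rep p.rep_nonzero ∈ Projectivization.mk k l.rep l.rep_nonzero ↔
      p.rep ⬝ᵥ l.rep = 0 := Projectivization.orthogonal_mk _ _
  rwa [Projectivization.mk_rep, Projectivization.mk_rep] at h

open scoped LinearAlgebra.Projectivization in
lemma order_eq [DecidableEq k] : ProjectivePlane.order (ℙ k (Fin 3 → k)) (ℙ k (Fin 3 → k)) = Nat.card k := by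
  classical
  have := Fintype.ofFinite (ℙ k (Fin 3 → k))
  have h1 := ProjectivePlane.card_points (ℙ k (Fin 3 → k)) (ℙ k (Fin 3 → k))
  have h2 := Projectivization.card_of_finrank k (Fin 3 → k) (n := 3) (by simp)
  rw [Nat.card_eq_fintype_card, h1, Finset.sum_range_succ, Finset.sum_range_succ,
    Finset.sum_range_one, pow_zero, pow_one] at h2
  generalize ProjectivePlane.order (ℙ k (Fin 3 → k)) (ℙ k (Fin 3 → k)) = a at *
  generalize Nat.card k = b at *
  rcases lt_trichotomy a b with h | h | h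
  · nlinarith
  · exact h
  · nlinarith

open scoped LinearAlgebra.Projectivization in
theorem cyc_field (h3 : Module.finrank k K = 3) :
    Pool.Agent.H12.ST.IsCyc (ℙ k (Fin 3 → k)) (ℙ k (Fin 3 → k)) (Nat.card k) := by
  classical
  have hfd : Module.Finite k K := Module.Finite.of_finite
  let e : (Fin 3 → k) ≃ₗ[k] K := LinearEquiv.ofFinrankEq _ _ (by rw [h3]; simp)
  have he : ∀ v : Fin 3 → k, v ≠ 0 → e v ≠ 0 := fun v hv h =>
    hv (e.map_eq_zero_iff.1 h)
  choose c hc using exists_c e
  let f0 : ℙ k (Fin 3 → k) → Cl k K := fun p => cl k (Units.mk0 (e p.rep) (he _ p.rep_nonzero))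
  let g0 : ℙ k (Fin 3 → k) → Cl k K := fun l => cl k (c l.rep l.rep_nonzero)
  have hmem : ∀ p l : ℙ k (Fin 3 → k), p ∈ l ↔ f0 p * g0 l ∈ D0 k K := by
    intro p l
    rw [mem_rep, hc l.rep l.rep_nonzero p.rep]
    show _ ↔ cl k (Units.mk0 (e p.rep) (he _ p.rep_nonzero) * c l.rep l.rep_nonzero) ∈ D0 k K
    rw [mem_D0, Units.val_mul, Units.val_mk0]
  have hf : Function.Bijective f0 := by
    constructor
    · intro p q hpq
      obtain ⟨t, ht⟩ := (cl_eq _ _).1 hpq
      rw [Units.val_mk0, Units.val_mk0, ← map_smul] at ht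
      have h1 := e.injective ht
      rw [← p.mk_rep, ← q.mk_rep, eq_comm, Projectivization.mk_eq_mk_iff']
      exact ⟨t, h1.symm⟩
    · intro a
      obtain ⟨u, rfl⟩ := QuotientGroup.mk_surjective a
      have h0 : e.symm (u : K) ≠ 0 := fun h => u.ne_zero (e.symm.map_eq_zero_iff.1 h)
      refine ⟨Projectivization.mk k _ h0, ?_⟩
      obtain ⟨t, ht⟩ := Projectivization.exists_smul_eq_mk_rep k _ h0
      refine ((cl_eq u _).2 ⟨(t : k), ?_⟩).symm
      rw [Units.val_mk0, ← ht, Units.smul_def, map_smul, LinearEquiv.apply_symm_apply]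
  have hcard : Nat.card (ℙ k (Fin 3 → k)) = Nat.card (Cl k K) := Nat.card_eq_of_bijective f0 hf
  have hg : Function.Bijective g0 := by
    refine (Nat.bijective_iff_injective_and_card g0).2 ⟨?_, hcard⟩
    intro l m hlm
    obtain ⟨t, ht⟩ := (cl_eq _ _).1 hlm
    have h1 : m.rep = t • l.rep := by
      rw [← sub_eq_zero, ← dotProduct_eq_zero_iff]
      intro v
      rw [dotProduct_comm, dotProduct_sub, dotProduct_smul, hc m.rep m.rep_nonzero,
        hc l.rep l.rep_nonzero, ht, mul_smul_comm, map_smul, sub_self]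
    rw [← l.mk_rep, ← m.mk_rep, eq_comm, Projectivization.mk_eq_mk_iff']
    exact ⟨t, h1.symm⟩
  have hN : Nat.card (Cl k K) = Nat.card k ^ 2 + Nat.card k + 1 := by
    rw [← hcard, Projectivization.card_of_finrank k (Fin 3 → k) (n := 3) (by simp),
      Finset.sum_range_succ, Finset.sum_range_succ, Finset.sum_range_one]
    ring
  have hcyc : IsCyclic (Cl k K) :=
    isCyclic_of_surjective (QuotientGroup.mk' (Units.map (algebraMap k K : k →* K)).range)
      (QuotientGroup.mk'_surjective _)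
  obtain ⟨g, hg'⟩ := hcyc.exists_generator
  let ψ : Cl k K ≃* Multiplicative (ZMod (Nat.card k ^ 2 + Nat.card k + 1)) :=
    (zmodMulEquivOfGenerator hg' hN).symm
  refine ⟨(Equiv.ofBijective f0 hf).trans (ψ.toEquiv.trans Multiplicative.toAdd),
    (Equiv.ofBijective g0 hg).trans (ψ.toEquiv.trans (Multiplicative.toAdd.trans (Equiv.neg _))),
    {x | ψ.symm (Multiplicative.ofAdd x) ∈ D0 k K}, ?_⟩
  intro p l
  rw [hmem, Set.mem_ofPred_eq]
  have h1 : ψ.symm (Multiplicative.ofAdd (Multiplicative.toAdd (ψ (f0 p)) -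
      -(Multiplicative.toAdd (ψ (g0 l))))) = f0 p * g0 l := by
    rw [sub_neg_eq_add, ofAdd_add, ofAdd_toAdd, ofAdd_toAdd, ← map_mul, MulEquiv.symm_apply_apply]
  show _ ↔ ψ.symm (Multiplicative.ofAdd (Multiplicative.toAdd (ψ (f0 p)) -
      -(Multiplicative.toAdd (ψ (g0 l))))) ∈ D0 k K
  rw [h1]

end

/-- **Singer's theorem.** -/
theorem singer {p m : ℕ} (hp : p.Prime) (hm : m ≠ 0) :
    ∃ (P L : Type) (_ : Membership P L) (_ : Finite P) (_ : Finite L) (_ : ProjectivePlane P L),
      ProjectivePlane.order P L = p ^ m ∧ Pool.Agent.H12.ST.IsCyc P L (p ^ m) := by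
  have : Fact p.Prime := ⟨hp⟩
  let _ : DecidableEq (GaloisField p m) := Classical.decEq _
  have hcard : Nat.card (GaloisField p m) = p ^ m := GaloisField.card p m hm
  refine ⟨Projectivization (GaloisField p m) (Fin 3 → GaloisField p m),
    Projectivization (GaloisField p m) (Fin 3 → GaloisField p m), inferInstance, inferInstance,
    inferInstance, inferInstance, ?_, ?_⟩
  · rw [← hcard]
    exact order_eq
  · rw [← hcard]
    exact cyc_field (K := FiniteField.Extension (GaloisField p m) p 3)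
      (FiniteField.finrank_extension (GaloisField p m) p 3)

end Pool.Agent.H12.SG
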